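import Pool.Agent.Y813.LE.Stm

set_option autoImplicit false

/-!
# Job GEN (project LEE): a full sublattice with short representatives modulo 2 is everything
-/

namespace Pool.Agent.Y338.LE

open Finset Pool.Agent.Y813.RL Pool.Agent.Y813.LE

section even

variable {ι : Type} [Fintype ι] [DecidableEq ι] {B : Matrix ι ι ℤ}

/-- even Gram matrices give even norms -/
theorem even_bf (hB : B.IsSymm) (he : ∀ i, Even (B i i)) (v : ι → ℤ) : ∃ N : ℤ, bf B v v = 2 * N := by
  let f : (ι → ℤ) →+ ZMod 2 :=
    { toFun := fun v => ((bf B v v : ℤ) : ZMod 2)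
      map_zero' := by rw [bf_zero_left]; simp
      map_add' := by
        intro x y
        rw [bf_add_left, bf_add_right, bf_add_right, bf_comm hB y x]
        push_cast
        have : (2 : ZMod 2) = 0 := rfl
        linear_combination ((bf B x y : ℤ) : ZMod 2) * this }
  have hf : f = 0 := by
    apply AddMonoidHom.functions_ext
    intro i n
    have h1 : bf B (Pi.single i n) (Pi.single i n) = n * B i i * n := by
      simp [bf, Pi.single_apply]
    have h2 : ((B i i : ℤ) : ZMod 2) = 0 := by
      have := (he i).two_dvd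
      exact (ZMod.intCast_zmod_eq_zero_iff_dvd _ 2).2 (by exact_mod_cast this)
    show ((bf B (Pi.single i n) (Pi.single i n) : ℤ) : ZMod 2) = 0
    rw [h1]
    push_cast
    rw [h2]
    simp
  have := DFunLike.congr_fun hf v
  have h3 : ((bf B v v : ℤ) : ZMod 2) = 0 := this
  have h4 := (ZMod.intCast_zmod_eq_zero_iff_dvd _ 2).1 h3
  obtain ⟨N, hN⟩ := h4
  exact ⟨N, by exact_mod_cast hN⟩

end even

section gram

variable {r m : ℕ} {G : Matrix (Fin r) (Fin r) ℤ} {D : Matrix (Fin m) (Fin m) ℤ}

/-- Gram matrix of integral combinations -/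
theorem bf_comb {R : Type} [CommRing R] (b : Fin m → Fin r → ℤ)
    (hb : ∀ i j, bf G (b i) (b j) = D i j) (c c' : Fin m → R) :
    bf G (∑ i, c i • (fun t => ((b i t : ℤ) : R))) (∑ i, c' i • (fun t => ((b i t : ℤ) : R))) =
      bf D c c' := by
  have hl : ∀ (x : Fin m → Fin r → R) (z : Fin r → R) (c : Fin m → R),
      bf G (∑ i, c i • x i) z = ∑ i, c i * bf G (x i) z := by
    intro x z c
    classical
    have : ∀ s : Finset (Fin m), bf G (∑ i ∈ s, c i • x i) z = ∑ i ∈ s, c i * bf G (x i) z := by
      intro s
      induction s using Finset.induction_on with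
      | empty => simp [bf_zero_left]
      | insert a s ha ih => rw [sum_insert ha, sum_insert ha, bf_add_left, bf_smul_left, ih]
    exact this _
  have hr : ∀ (x : Fin m → Fin r → R) (z : Fin r → R) (c : Fin m → R),
      bf G z (∑ i, c i • x i) = ∑ i, c i * bf G z (x i) := by
    intro x z c
    classical
    have : ∀ s : Finset (Fin m), bf G z (∑ i ∈ s, c i • x i) = ∑ i ∈ s, c i * bf G z (x i) := by
      intro s
      induction s using Finset.induction_on with
      | empty => simp [bf_zero_right]
      | insert a s ha ih => rw [sum_insert ha, sum_insert ha, bf_add_right, bf_smul_right, ih]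
    exact this _
  rw [hl]
  unfold bf
  refine sum_congr rfl fun i _ => ?_
  have h1 := hr (fun i => (fun t => ((b i t : ℤ) : R))) (fun t => ((b i t : ℤ) : R)) c'
  unfold bf at h1
  rw [h1, mul_sum]
  refine sum_congr rfl fun j _ => ?_
  have h2 := bf_intCast G (R := R) (b i) (b j)
  rw [hb] at h2
  unfold bf at h2
  rw [h2]
  ring

theorem bf_combZ (b : Fin m → Fin r → ℤ)
    (hb : ∀ i j, bf G (b i) (b j) = D i j) (c c' : Fin m → ℤ) :
    bf G (∑ i, c i • b i) (∑ i, c' i • b i) = bf D c c' := by
  have := bf_comb (R := ℤ) b hb c c'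
  simpa using this

end gram

/-- norm of an integer vector is nonnegative, and zero only for the zero vector -/
theorem ER.nonneg {r : ℕ} {G : Matrix (Fin r) (Fin r) ℤ} (h : ER G) (v : Fin r → ℤ) :
    0 ≤ bf G v v := by
  by_cases hv : v = 0
  · simp [hv, bf]
  · have h1 := h.pos (fun i => (v i : ℝ)) (by
      intro h0
      apply hv
      funext i
      have := congrFun h0 i
      simpa using this)
    rw [bf_intCast] at h1
    exact_mod_cast h1.le

theorem ER.eq_zero {r : ℕ} {G : Matrix (Fin r) (Fin r) ℤ} (h : ER G) {v : Fin r → ℤ}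
    (hv : bf G v v = 0) : v = 0 := by
  by_contra hne
  have h1 := h.pos (fun i => (v i : ℝ)) (by
      intro h0
      apply hne
      funext i
      have := congrFun h0 i
      simpa using this)
  rw [bf_intCast, hv] at h1
  simp at h1

/-- the norms are `0`, or at least `4` -/
theorem ER.four {r : ℕ} {G : Matrix (Fin r) (Fin r) ℤ} (h : ER G) {v : Fin r → ℤ}
    (hv : bf G v v < 4) : v = 0 := by
  obtain ⟨N, hN⟩ := even_bf h.symm h.even v
  have h0 := ER.nonneg h v
  have h2 := h.noroot v
  exact ER.eq_zero h (by omega)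

theorem gen : JobGen := by
  intro r m G D D' k b hG hb hk hDD hcls hspan
  -- kernel of D
  have hker : ∀ c : Fin m → ℤ, D.mulVec c = 0 → c = 0 := by
    intro c hc
    have h1 : (D' * D).mulVec c = 0 := by rw [← Matrix.mulVec_mulVec, hc, Matrix.mulVec_zero]
    rw [hDD, Matrix.smul_mulVec, Matrix.one_mulVec] at h1
    funext i
    have := congrFun h1 i
    simp only [Pi.smul_apply, smul_eq_mul, Pi.zero_apply, mul_eq_zero] at this
    rcases this with h | h
    · exact absurd h hk
    · simpa using h
  have hbfker : ∀ c : Fin m → ℤ, (∑ i, c i • b i) = 0 → c = 0 := by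
    intro c hc
    apply hker
    funext i
    have h1 := bf_combZ b hb (Pi.single i 1) c
    rw [hc, bf_zero_right] at h1
    simp only [Matrix.mulVec, dotProduct, Pi.zero_apply]
    rw [h1]
    simp [bf, Pi.single_apply]
  -- (i)
  have h_i : ∀ (c : Fin m → ℤ) (y : Fin r → ℤ), (∑ i, c i • b i) = 2 • y → ∀ i, 2 ∣ c i := by
    intro c y hy i
    obtain ⟨c', e, hce, hn⟩ := hcls c
    have h1 : (∑ i, c' i • b i) = 2 • (y + ∑ i, e i • b i) := by
      rw [smul_add, ← hy, smul_sum, ← sum_add_distrib]
      refine sum_congr rfl fun i _ => ?_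
      rw [hce]
      funext t
      simp
      ring
    have h2 := bf_combZ b hb c' c'
    rw [h1] at h2
    have h3 : bf G (2 • (y + ∑ i, e i • b i)) (2 • (y + ∑ i, e i • b i)) =
        4 * bf G (y + ∑ i, e i • b i) (y + ∑ i, e i • b i) := by
      have : (2 • (y + ∑ i, e i • b i)) = (2 : ℤ) • (y + ∑ i, e i • b i) := by
        funext t; simp
      rw [this, bf_smul_left, bf_smul_right]
      ring
    rw [h3] at h2
    have h4 : (y + ∑ i, e i • b i) = 0 := ER.four hG (by linarith)
    rw [h4, smul_zero] at h1
    have h5 := hbfker c' h1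
    have h6 := congrFun h5 i
    rw [hce] at h6
    simp at h6
    exact ⟨-e i, by omega⟩
  -- real linear maps
  let b' : Fin m → Fin r → ℝ := fun i t => (b i t : ℝ)
  have hli : LinearIndependent ℝ b' := by
    rw [Fintype.linearIndependent_iff]
    intro g hg
    have h1 : ∀ i, ∑ j, (D i j : ℝ) * g j = 0 := by
      intro i
      have h1 := bf_comb (R := ℝ) b hb (Pi.single i 1) g
      have h2 : (∑ i, g i • (fun t => ((b i t : ℤ) : ℝ))) = 0 := hg
      rw [h2, bf_zero_right] at h1
      rw [h1]
      simp [bf, Pi.single_apply]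
    intro i
    have h2 : (k : ℝ) * g i = 0 := by
      have h3 : ∀ a c, ∑ j, (D' a j : ℝ) * (D j c : ℝ) = if a = c then (k : ℝ) else 0 := by
        intro a c
        have := congrFun (congrFun hDD a) c
        simp only [Matrix.mul_apply, Matrix.smul_apply, Matrix.one_apply, smul_eq_mul, mul_ite,
          mul_one, mul_zero] at this
        have h4 : ((∑ j, D' a j * D j c : ℤ) : ℝ) = ((if a = c then k else 0 : ℤ) : ℝ) := by
          rw [this]
        push_cast at h4
        exact h4
      have h5 : ∑ a, (D' i a : ℝ) * ∑ j, (D a j : ℝ) * g j = 0 := by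
        simp [h1]
      have h6 : ∑ a, (D' i a : ℝ) * ∑ j, (D a j : ℝ) * g j = ∑ j, (∑ a, (D' i a : ℝ) * (D a j : ℝ)) * g j := by
        simp only [mul_sum, sum_mul]
        rw [sum_comm]
        refine sum_congr rfl fun j _ => sum_congr rfl fun a _ => by ring
      rw [h6] at h5
      simp only [h3] at h5
      simpa using h5
    rcases mul_eq_zero.1 h2 with h | h
    · exact absurd (by exact_mod_cast h) hk
    · exact h
  have hmr : m ≤ r := by
    have := hli.fintype_card_le_finrank
    simpa using this
  have hrm : r ≤ m := by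
    let φ : (Fin r → ℝ) →ₗ[ℝ] (Fin m → ℝ) :=
      { toFun := fun d i => bf G d (b' i)
        map_add' := by intro x y; funext i; simp [bf_add_left]
        map_smul' := by intro c x; funext i; simp [bf_smul_left] }
    have hφ : Function.Injective φ := by
      rw [← LinearMap.ker_eq_bot, LinearMap.ker_eq_bot']
      intro d hd
      exact hspan d fun i => congrFun hd i
    have := LinearMap.finrank_le_finrank_of_injective hφ
    simpa using this
  have hmeq : m = r := le_antisymm hmr hrm
  -- (ii)
  let ψ : (Fin m → ZMod 2) →ₗ[ZMod 2] (Fin r → ZMod 2) :=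
    { toFun := fun c => ∑ i, c i • (fun t => ((b i t : ℤ) : ZMod 2))
      map_add' := by intro x y; simp [add_smul, sum_add_distrib]
      map_smul' := by intro c x; simp [mul_smul, smul_sum] }
  have hψ : Function.Injective ψ := by
    rw [← LinearMap.ker_eq_bot, LinearMap.ker_eq_bot']
    intro c hc
    let c0 : Fin m → ℤ := fun i => ((c i).val : ℤ)
    have hc0 : ∀ i, ((c0 i : ℤ) : ZMod 2) = c i := by
      intro i
      simp [c0]
    have h1 : ∀ t, (2 : ℤ) ∣ (∑ i, c0 i • b i) t := by
      intro t
      have h2 := congrFun hc t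
      have h3 : (((∑ i, c0 i • b i) t : ℤ) : ZMod 2) = 0 := by
        rw [← show ψ c t = 0 from h2]
        simp [ψ, Finset.sum_apply, hc0]
      exact (ZMod.intCast_zmod_eq_zero_iff_dvd _ 2).1 h3
    choose y hy using h1
    have h2 := h_i c0 y (by
      funext t
      rw [hy t]
      simp)
    funext i
    rw [← hc0 i]
    exact (ZMod.intCast_zmod_eq_zero_iff_dvd _ 2).2 (by exact_mod_cast h2 i)
  have hψs : Function.Surjective ψ := by
    refine (LinearMap.injective_iff_surjective_of_finrank_eq_finrank ?_).1 hψ
    simp [hmeq]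
  have h_ii : ∀ y : Fin r → ℤ, ∃ (c : Fin m → ℤ) (y' : Fin r → ℤ),
      y = (∑ i, c i • b i) + 2 • y' ∧ bf D c c ≤ 6 := by
    intro y
    obtain ⟨c, hc⟩ := hψs (fun t => ((y t : ℤ) : ZMod 2))
    let c0 : Fin m → ℤ := fun i => ((c i).val : ℤ)
    have hc0 : ∀ i, ((c0 i : ℤ) : ZMod 2) = c i := by
      intro i
      simp [c0]
    have h1 : ∀ t, (2 : ℤ) ∣ y t - (∑ i, c0 i • b i) t := by
      intro t
      have h2 := congrFun hc t
      have h3 : (((y t - (∑ i, c0 i • b i) t : ℤ)) : ZMod 2) = 0 := by
        rw [Int.cast_sub, ← h2]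
        simp [ψ, Finset.sum_apply, hc0]
      exact (ZMod.intCast_zmod_eq_zero_iff_dvd _ 2).1 h3
    choose z hz using h1
    obtain ⟨c', e, hce, hn⟩ := hcls c0
    refine ⟨c', z - ∑ i, e i • b i, ?_, hn⟩
    funext t
    have h4 := hz t
    simp only [Pi.add_apply, Finset.sum_apply, Pi.smul_apply, smul_eq_mul, Pi.sub_apply] at h4 ⊢
    have h5 : ∑ i, c' i * b i t = ∑ i, c0 i * b i t + 2 * ∑ i, e i * b i t := by
      rw [mul_sum, ← sum_add_distrib]
      refine sum_congr rfl fun i _ => ?_
      rw [hce]
      ring
    rw [h5]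
    simp only [nsmul_eq_mul, Nat.cast_ofNat]
    linarith
  -- (iii)
  have h_iii : ∀ (n : ℕ) (y : Fin r → ℤ), bf G y y ≤ n → ∃ c : Fin m → ℤ, y = ∑ i, c i • b i := by
    intro n
    induction n using Nat.strong_induction_on with
    | _ n ih =>
      intro y hy
      obtain ⟨c, y', hyc, hn⟩ := h_ii y
      have hs : bf G (∑ i, c i • b i) (∑ i, c i • b i) ≤ 6 := by rw [bf_combZ b hb]; exact hn
      set s := ∑ i, c i • b i with hsdef
      have e1 : bf G y y = bf G s s + 4 * bf G s y' + 4 * bf G y' y' := by
        have : (2 • y') = (2 : ℤ) • y' := by funext t; simp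
        rw [hyc, this, bf_add_left, bf_add_right, bf_add_right, bf_smul_left, bf_smul_left,
          bf_smul_right, bf_smul_right, bf_comm hG.symm y' s]
        ring
      have e2 : bf G (y' + s) (y' + s) = bf G y' y' + 2 * bf G s y' + bf G s s := by
        rw [bf_add_left, bf_add_right, bf_add_right, bf_comm hG.symm y' s]
        ring
      have e3 : 2 * (bf G y' y' + bf G (y' + s) (y' + s)) = bf G y y + bf G s s := by
        rw [e2, e1]; ring
      have p1 := ER.nonneg hG y'
      have p2 := ER.nonneg hG (y' + s)
      by_cases h6 : bf G y y ≤ 6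
      · by_cases h7 : bf G y' y' < 4
        · have := ER.four hG h7
          refine ⟨c, ?_⟩
          rw [hyc, this, smul_zero, add_zero]
        · have h8 : bf G (y' + s) (y' + s) < 4 := by omega
          have := ER.four hG h8
          refine ⟨-c, ?_⟩
          have h9 : y' = -s := eq_neg_of_add_eq_zero_left this
          have h10 : ∑ i, (-c) i • b i = -s := by
            rw [hsdef, ← sum_neg_distrib]
            refine sum_congr rfl fun i _ => ?_
            simp
          rw [h10, hyc, h9]
          funext t
          simp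
          ring
      · have h7 : bf G y' y' < n := by
          have : bf G y' y' < bf G y y := by omega
          omega
        have h8 : (bf G y' y').toNat < n := by omega
        obtain ⟨c2, hc2⟩ := ih _ h8 y' (by omega)
        refine ⟨c + 2 • c2, ?_⟩
        have h9 : ∑ i, (c + 2 • c2) i • b i = s + 2 • ∑ i, c2 i • b i := by
          rw [hsdef, smul_sum, ← sum_add_distrib]
          refine sum_congr rfl fun i _ => ?_
          funext t
          simp
          ring
        rw [h9, ← hc2]
        exact hyc
  intro y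
  exact h_iii (bf G y y).toNat y (by
    have := ER.nonneg hG y
    omega)

end Pool.Agent.Y338.LE
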