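import Pool.Agent.Y338.LE.TypesA

set_option autoImplicit false

/-!
# Job TYPES (project LEE): the 14 patterns
-/

namespace Pool.Agent.Y338.LE

open Finset Pool.Agent.Y813.RL Pool.Agent.Y813.LE

def tab9_0 : List (List ℤ) :=
  [[]]

theorem pat9_0 {r : ℕ} (G : Matrix (Fin r) (Fin r) ℤ) (hG : ER G)
    (h : HasPat G adj9 [0]) : ∃ P : Matrix (Fin 6) (Fin r) ℤ, P.transpose * d33 * P = G := by
  refine of_pat (m := 0) G hG d33 adj9 [0] h 0 (by decide)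
    (ofL [] 0) (by decide +kernel)
    (ofM []) (ofM []) 1
    (by decide) (by decide +kernel) (by decide +kernel) tab9_0 (by decide +kernel)
    (ofM [[], [], [], [], [], [], [], [], []]) (by decide +kernel) (ofL [] 0) (by decide +kernel)

def tab9_1 : List (List ℤ) :=
  [[0],
   [1]]

theorem pat9_1 {r : ℕ} (G : Matrix (Fin r) (Fin r) ℤ) (hG : ER G)
    (h : HasPat G adj9 [0, 1]) : ∃ P : Matrix (Fin 6) (Fin r) ℤ, P.transpose * d33 * P = G := by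
  refine of_pat (m := 1) G hG d33 adj9 [0, 1] h 0 (by decide)
    (ofL [1] 0) (by decide +kernel)
    (ofM [[6]]) (ofM [[1]]) 6
    (by decide) (by decide +kernel) (by decide +kernel) tab9_1 (by decide +kernel)
    (ofM [[0], [1], [0], [0], [0], [0], [0], [0], [0]]) (by decide +kernel) (ofL [0] 0) (by decide +kernel)

def tab9_2 : List (List ℤ) :=
  [[0],
   [1]]

theorem pat9_2 {r : ℕ} (G : Matrix (Fin r) (Fin r) ℤ) (hG : ER G)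
    (h : HasPat G adj9 [0, 3]) : ∃ P : Matrix (Fin 6) (Fin r) ℤ, P.transpose * d33 * P = G := by
  refine of_pat (m := 1) G hG d33 adj9 [0, 3] h 0 (by decide)
    (ofL [3] 0) (by decide +kernel)
    (ofM [[4]]) (ofM [[1]]) 4
    (by decide) (by decide +kernel) (by decide +kernel) tab9_2 (by decide +kernel)
    (ofM [[0], [0], [0], [1], [0], [0], [0], [0], [0]]) (by decide +kernel) (ofL [2] 0) (by decide +kernel)

def tab9_3 : List (List ℤ) :=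
  [[0, 0],
   [1, 0],
   [0, 1],
   [1, -1]]

theorem pat9_3 {r : ℕ} (G : Matrix (Fin r) (Fin r) ℤ) (hG : ER G)
    (h : HasPat G adj9 [0, 1, 3]) : ∃ P : Matrix (Fin 6) (Fin r) ℤ, P.transpose * d33 * P = G := by
  refine of_pat (m := 2) G hG d33 adj9 [0, 1, 3] h 0 (by decide)
    (ofL [1, 3] 0) (by decide +kernel)
    (ofM [[6, 3], [3, 4]]) (ofM [[4, -3], [-3, 6]]) 15
    (by decide) (by decide +kernel) (by decide +kernel) tab9_3 (by decide +kernel)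
    (ofM [[0, 0], [1, 0], [0, 0], [0, 1], [0, 0], [0, 0], [0, 0], [0, 0], [0, 0]]) (by decide +kernel) (ofL [0, 2] 0) (by decide +kernel)

def tab9_4 : List (List ℤ) :=
  [[0, 0],
   [1, 0],
   [0, 1],
   [1, -1]]

theorem pat9_4 {r : ℕ} (G : Matrix (Fin r) (Fin r) ℤ) (hG : ER G)
    (h : HasPat G adj9 [0, 3, 6]) : ∃ P : Matrix (Fin 6) (Fin r) ℤ, P.transpose * d33 * P = G := by
  refine of_pat (m := 2) G hG d33 adj9 [0, 3, 6] h 0 (by decide)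
    (ofL [3, 6] 0) (by decide +kernel)
    (ofM [[4, 2], [2, 4]]) (ofM [[2, -1], [-1, 2]]) 6
    (by decide) (by decide +kernel) (by decide +kernel) tab9_4 (by decide +kernel)
    (ofM [[0, 0], [0, 0], [0, 0], [1, 0], [0, 0], [0, 0], [0, 1], [0, 0], [0, 0]]) (by decide +kernel) (ofL [2, 4] 0) (by decide +kernel)

def tab9_5 : List (List ℤ) :=
  [[0, 0, 0],
   [1, 0, 0],
   [0, 1, 0],
   [1, -1, 0],
   [0, 0, 1],
   [1, 0, -1],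
   [0, 1, -1],
   [1, -1, -1]]

theorem pat9_5 {r : ℕ} (G : Matrix (Fin r) (Fin r) ℤ) (hG : ER G)
    (h : HasPat G adj9 [0, 1, 3, 4]) : ∃ P : Matrix (Fin 6) (Fin r) ℤ, P.transpose * d33 * P = G := by
  refine of_pat (m := 3) G hG d33 adj9 [0, 1, 3, 4] h 0 (by decide)
    (ofL [1, 3, 4] 0) (by decide +kernel)
    (ofM [[6, 3, 3], [3, 4, 1], [3, 1, 4]]) (ofM [[5, -3, -3], [-3, 5, 1], [-3, 1, 5]]) 12
    (by decide) (by decide +kernel) (by decide +kernel) tab9_5 (by decide +kernel)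
    (ofM [[0, 0, 0], [1, 0, 0], [0, 0, 0], [0, 1, 0], [0, 0, 1], [0, 0, 0], [0, 0, 0], [0, 0, 0], [0, 0, 0]]) (by decide +kernel) (ofL [0, 2, 3] 0) (by decide +kernel)

def tab9_6 : List (List ℤ) :=
  [[0, 0, 0],
   [1, 0, 0],
   [0, 1, 0],
   [1, -1, 0],
   [0, 0, 1],
   [1, 0, -1],
   [0, 1, -1],
   [1, -1, -1]]

theorem pat9_6 {r : ℕ} (G : Matrix (Fin r) (Fin r) ℤ) (hG : ER G)
    (h : HasPat G adj9 [0, 1, 3, 6]) : ∃ P : Matrix (Fin 6) (Fin r) ℤ, P.transpose * d33 * P = G := by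
  refine of_pat (m := 3) G hG d33 adj9 [0, 1, 3, 6] h 0 (by decide)
    (ofL [1, 3, 6] 0) (by decide +kernel)
    (ofM [[6, 3, 3], [3, 4, 2], [3, 2, 4]]) (ofM [[4, -2, -2], [-2, 5, -1], [-2, -1, 5]]) 12
    (by decide) (by decide +kernel) (by decide +kernel) tab9_6 (by decide +kernel)
    (ofM [[0, 0, 0], [1, 0, 0], [0, 0, 0], [0, 1, 0], [0, 0, 0], [0, 0, 0], [0, 0, 1], [0, 0, 0], [0, 0, 0]]) (by decide +kernel) (ofL [0, 2, 4] 0) (by decide +kernel)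

def tab9_7 : List (List ℤ) :=
  [[0, 0, 0, 0],
   [1, 0, 0, 0],
   [0, 1, 0, 0],
   [1, -1, 0, 0],
   [0, 0, 1, 0],
   [1, 0, -1, 0],
   [0, 1, -1, 0],
   [1, -1, -1, 0],
   [0, 0, 0, 1],
   [1, 0, 0, -1],
   [0, 1, 0, -1],
   [1, -1, 0, -1],
   [0, 0, 1, -1],
   [1, 0, -1, -1],
   [0, 1, 1, -1],
   [1, -1, -1, 1]]

theorem pat9_7 {r : ℕ} (G : Matrix (Fin r) (Fin r) ℤ) (hG : ER G)
    (h : HasPat G adj9 [0, 1, 3, 4, 6]) : ∃ P : Matrix (Fin 6) (Fin r) ℤ, P.transpose * d33 * P = G := by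
  refine of_pat (m := 4) G hG d33 adj9 [0, 1, 3, 4, 6] h 0 (by decide)
    (ofL [1, 3, 4, 6] 0) (by decide +kernel)
    (ofM [[6, 3, 3, 3], [3, 4, 1, 2], [3, 1, 4, 2], [3, 2, 2, 4]]) (ofM [[4, -2, -2, -1], [-2, 4, 1, -1], [-2, 1, 4, -1], [-1, -1, -1, 4]]) 9
    (by decide) (by decide +kernel) (by decide +kernel) tab9_7 (by decide +kernel)
    (ofM [[0, 0, 0, 0], [1, 0, 0, 0], [0, 0, 0, 0], [0, 1, 0, 0], [0, 0, 1, 0], [0, 0, 0, 0], [0, 0, 0, 1], [0, 0, 0, 0], [0, 0, 0, 0]]) (by decide +kernel) (ofL [0, 2, 3, 4] 0) (by decide +kernel)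

def tab9_8 : List (List ℤ) :=
  [[0, 0],
   [1, 0],
   [0, 1],
   [1, -1]]

theorem pat9_8 {r : ℕ} (G : Matrix (Fin r) (Fin r) ℤ) (hG : ER G)
    (h : HasPat G adj9 [0, 1, 2]) : ∃ P : Matrix (Fin 6) (Fin r) ℤ, P.transpose * d33 * P = G := by
  refine of_pat (m := 2) G hG d33 adj9 [0, 1, 2] h 0 (by decide)
    (ofL [1, 2] 0) (by decide +kernel)
    (ofM [[6, 3], [3, 6]]) (ofM [[2, -1], [-1, 2]]) 9
    (by decide) (by decide +kernel) (by decide +kernel) tab9_8 (by decide +kernel)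
    (ofM [[0, 0], [1, 0], [0, 1], [0, 0], [0, 0], [0, 0], [0, 0], [0, 0], [0, 0]]) (by decide +kernel) (ofL [0, 1] 0) (by decide +kernel)

def tab9_9 : List (List ℤ) :=
  [[0, 0, 0, 0],
   [1, 0, 0, 0],
   [0, 1, 0, 0],
   [1, -1, 0, 0],
   [0, 0, 1, 0],
   [1, 0, -1, 0],
   [0, 1, -1, 0],
   [1, 1, -1, -2],
   [0, 0, 0, 1],
   [1, 0, 0, -1],
   [0, 1, 0, -1],
   [1, 1, -2, -1],
   [0, 0, 1, -1],
   [1, 0, -1, -1],
   [0, 1, -1, -1],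
   [1, 1, -1, -1]]

theorem pat9_9 {r : ℕ} (G : Matrix (Fin r) (Fin r) ℤ) (hG : ER G)
    (h : HasPat G adj9 [0, 1, 2, 3, 4, 5]) : ∃ P : Matrix (Fin 6) (Fin r) ℤ, P.transpose * d33 * P = G := by
  refine of_pat (m := 4) G hG d33 adj9 [0, 1, 2, 3, 4, 5] h 0 (by decide)
    (ofL [1, 2, 3, 4] 0) (by decide +kernel)
    (ofM [[6, 3, 3, 3], [3, 6, 3, 3], [3, 3, 4, 1], [3, 3, 1, 4]]) (ofM [[4, 1, -3, -3], [1, 4, -3, -3], [-3, -3, 6, 3], [-3, -3, 3, 6]]) 9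
    (by decide) (by decide +kernel) (by decide +kernel) tab9_9 (by decide +kernel)
    (ofM [[0, 0, 0, 0], [1, 0, 0, 0], [0, 1, 0, 0], [0, 0, 1, 0], [0, 0, 0, 1], [1, 1, -1, -1], [0, 0, 0, 0], [0, 0, 0, 0], [0, 0, 0, 0]]) (by decide +kernel) (ofL [0, 1, 2, 3] 0) (by decide +kernel)

def tab9_10 : List (List ℤ) :=
  [[0, 0, 0, 0, 0, 0],
   [1, 0, 0, 0, 0, 0],
   [0, 1, 0, 0, 0, 0],
   [1, -1, 0, 0, 0, 0],
   [0, 0, 1, 0, 0, 0],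
   [1, 0, -1, 0, 0, 0],
   [0, 1, -1, 0, 0, 0],
   [1, 1, -1, -2, 0, 0],
   [0, 0, 0, 1, 0, 0],
   [1, 0, 0, -1, 0, 0],
   [0, 1, 0, -1, 0, 0],
   [1, 1, -2, -1, 0, 0],
   [0, 0, 1, -1, 0, 0],
   [1, 0, -1, -1, 0, 0],
   [0, 1, -1, -1, 0, 0],
   [1, 1, -1, -1, 0, 0],
   [0, 0, 0, 0, 1, 0],
   [1, 0, 0, 0, -1, 0],
   [0, 1, 0, 0, -1, 0],
   [1, 1, 0, 0, -1, -2],
   [0, 0, 1, 0, -1, 0],
   [1, 0, -1, 0, -1, 0],
   [0, 1, -1, 0, -1, 0],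
   [1, 1, -1, 0, -1, 0],
   [0, 0, 0, 1, -1, 0],
   [1, 0, 0, -1, -1, 0],
   [0, 1, 0, -1, -1, 0],
   [1, 1, 0, -1, -1, 0],
   [0, 0, 1, 1, -1, 0],
   [1, 0, -1, -1, 1, 0],
   [0, 1, -1, -1, 1, 0],
   [1, 1, -1, -1, -1, 0],
   [0, 0, 0, 0, 0, 1],
   [1, 0, 0, 0, 0, -1],
   [0, 1, 0, 0, 0, -1],
   [1, 1, 0, 0, -2, -1],
   [0, 0, 1, 0, 0, -1],
   [1, 0, -1, 0, 0, -1],
   [0, 1, -1, 0, 0, -1],
   [1, 1, -1, 0, 0, -1],
   [0, 0, 0, 1, 0, -1],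
   [1, 0, 0, -1, 0, -1],
   [0, 1, 0, -1, 0, -1],
   [1, 1, 0, -1, 0, -1],
   [0, 0, 1, 1, 0, -1],
   [1, 0, -1, -1, 0, 1],
   [0, 1, -1, -1, 0, 1],
   [1, 1, -1, -1, 0, -1],
   [0, 0, 0, 0, 1, -1],
   [1, 0, 0, 0, -1, -1],
   [0, 1, 0, 0, -1, -1],
   [1, 1, 0, 0, -1, -1],
   [0, 0, 1, 0, -1, -1],
   [1, 0, 1, 0, -1, -1],
   [0, 1, 1, 0, -1, -1],
   [1, 1, -1, 0, -1, -1],
   [0, 0, 0, 1, -1, -1],
   [1, 0, 0, 1, -1, -1],
   [0, 1, 0, 1, -1, -1],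
   [1, 1, 0, -1, -1, -1],
   [0, 0, 1, 1, -1, -1],
   [1, 2, -1, -1, -1, -1],
   [2, 1, -1, -1, -1, -1],
   [1, 1, -1, -1, -1, -1]]

theorem pat9_10 {r : ℕ} (G : Matrix (Fin r) (Fin r) ℤ) (hG : ER G)
    (h : HasPat G adj9 [0, 1, 2, 3, 4, 5, 6, 7, 8]) : ∃ P : Matrix (Fin 6) (Fin r) ℤ, P.transpose * d33 * P = G := by
  refine of_pat (m := 6) G hG d33 adj9 [0, 1, 2, 3, 4, 5, 6, 7, 8] h 0 (by decide)
    (ofL [1, 2, 3, 4, 6, 7] 0) (by decide +kernel)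
    (ofM [[6, 3, 3, 3, 3, 3], [3, 6, 3, 3, 3, 3], [3, 3, 4, 1, 2, 2], [3, 3, 1, 4, 2, 2], [3, 3, 2, 2, 4, 1], [3, 3, 2, 2, 1, 4]]) (ofM [[2, 1, -1, -1, -1, -1], [1, 2, -1, -1, -1, -1], [-1, -1, 2, 1, 0, 0], [-1, -1, 1, 2, 0, 0], [-1, -1, 0, 0, 2, 1], [-1, -1, 0, 0, 1, 2]]) 3
    (by decide) (by decide +kernel) (by decide +kernel) tab9_10 (by decide +kernel)
    (ofM [[0, 0, 0, 0, 0, 0], [1, 0, 0, 0, 0, 0], [0, 1, 0, 0, 0, 0], [0, 0, 1, 0, 0, 0], [0, 0, 0, 1, 0, 0], [1, 1, -1, -1, 0, 0], [0, 0, 0, 0, 1, 0], [0, 0, 0, 0, 0, 1], [1, 1, 0, 0, -1, -1]]) (by decide +kernel) (ofL [0, 1, 2, 3, 4, 5] 0) (by decide +kernel)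

def tab5_0 : List (List ℤ) :=
  [[0, 0],
   [1, 0],
   [0, 1],
   [1, -1]]

theorem pat5_0 {r : ℕ} (G : Matrix (Fin r) (Fin r) ℤ) (hG : ER G)
    (h : HasPat G adj5 [0, 1, 2]) : ∃ P : Matrix (Fin 4) (Fin r) ℤ, P.transpose * d5 * P = G := by
  refine of_pat (m := 2) G hG d5 adj5 [0, 1, 2] h 0 (by decide)
    (ofL [1, 2] 0) (by decide +kernel)
    (ofM [[6, 2], [2, 4]]) (ofM [[2, -1], [-1, 3]]) 10
    (by decide) (by decide +kernel) (by decide +kernel) tab5_0 (by decide +kernel)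
    (ofM [[0, 0], [1, 0], [0, 1], [0, 0], [0, 0]]) (by decide +kernel) (ofL [0, 1] 0) (by decide +kernel)

def tab5_1 : List (List ℤ) :=
  [[0, 0, 0],
   [1, 0, 0],
   [0, 1, 0],
   [1, -1, 0],
   [0, 0, 1],
   [1, 0, -1],
   [0, 1, -1],
   [1, -1, -1]]

theorem pat5_1 {r : ℕ} (G : Matrix (Fin r) (Fin r) ℤ) (hG : ER G)
    (h : HasPat G adj5 [0, 1, 2, 3]) : ∃ P : Matrix (Fin 4) (Fin r) ℤ, P.transpose * d5 * P = G := by
  refine of_pat (m := 3) G hG d5 adj5 [0, 1, 2, 3] h 0 (by decide)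
    (ofL [1, 2, 3] 0) (by decide +kernel)
    (ofM [[6, 2, 3], [2, 4, 1], [3, 1, 4]]) (ofM [[3, -1, -2], [-1, 3, 0], [-2, 0, 4]]) 10
    (by decide) (by decide +kernel) (by decide +kernel) tab5_1 (by decide +kernel)
    (ofM [[0, 0, 0], [1, 0, 0], [0, 1, 0], [0, 0, 1], [0, 0, 0]]) (by decide +kernel) (ofL [0, 1, 2] 0) (by decide +kernel)

def tab5_2 : List (List ℤ) :=
  [[0, 0, 0, 0],
   [1, 0, 0, 0],
   [0, 1, 0, 0],
   [1, -1, 0, 0],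
   [0, 0, 1, 0],
   [1, 0, -1, 0],
   [0, 1, -1, 0],
   [1, -1, -1, 0],
   [0, 0, 0, 1],
   [1, 0, 0, -1],
   [0, 1, 0, -1],
   [1, 1, 0, -1],
   [0, 0, 1, -1],
   [1, 0, -1, -1],
   [0, 1, 1, -1],
   [1, 1, -1, -1]]

theorem pat5_2 {r : ℕ} (G : Matrix (Fin r) (Fin r) ℤ) (hG : ER G)
    (h : HasPat G adj5 [0, 1, 2, 3, 4]) : ∃ P : Matrix (Fin 4) (Fin r) ℤ, P.transpose * d5 * P = G := by
  refine of_pat (m := 4) G hG d5 adj5 [0, 1, 2, 3, 4] h 0 (by decide)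
    (ofL [1, 2, 3, 4] 0) (by decide +kernel)
    (ofM [[6, 2, 3, 4], [2, 4, 1, 3], [3, 1, 4, 2], [4, 3, 2, 6]]) (ofM [[2, 0, -1, -1], [0, 2, 0, -1], [-1, 0, 2, 0], [-1, -1, 0, 2]]) 5
    (by decide) (by decide +kernel) (by decide +kernel) tab5_2 (by decide +kernel)
    (ofM [[0, 0, 0, 0], [1, 0, 0, 0], [0, 1, 0, 0], [0, 0, 1, 0], [0, 0, 0, 1]]) (by decide +kernel) (ofL [0, 1, 2, 3] 0) (by decide +kernel)

theorem types : JobTypes := by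
  intro r G hG h
  rcases h with ⟨l, hl, h⟩ | ⟨l, hl, h⟩
  · left
    simp only [pats9, List.mem_cons, List.not_mem_nil, or_false] at hl
    rcases hl with rfl | rfl | rfl | rfl | rfl | rfl | rfl | rfl | rfl | rfl | rfl
    · exact pat9_0 G hG h
    · exact pat9_1 G hG h
    · exact pat9_2 G hG h
    · exact pat9_3 G hG h
    · exact pat9_4 G hG h
    · exact pat9_5 G hG h
    · exact pat9_6 G hG h
    · exact pat9_7 G hG h
    · exact pat9_8 G hG h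
    · exact pat9_9 G hG h
    · exact pat9_10 G hG h
  · right
    simp only [pats5, List.mem_cons, List.not_mem_nil, or_false] at hl
    rcases hl with rfl | rfl | rfl
    · exact pat5_0 G hG h
    · exact pat5_1 G hG h
    · exact pat5_2 G hG h

end Pool.Agent.Y338.LE
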