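import Pool.Agent.Y338.LE.Gen

set_option autoImplicit false

/-!
# Job TYPES (project LEE): general lemma
-/

namespace Pool.Agent.Y338.LE

open Finset Pool.Agent.Y813.RL Pool.Agent.Y813.LE

/-- squared distances of the pattern -/
def Nn {n : ℕ} (adj : Fin n → Fin n → Bool) (i j : Fin n) : ℤ :=
  if i = j then 0 else if adj i j then 6 else 4

/-- vector from a list -/
def ofL {m : ℕ} {α : Type} (l : List α) (d : α) (i : Fin m) : α := l.getD i d

/-- matrix from a list of lists -/
def ofM {m n : ℕ} (l : List (List ℤ)) : Matrix (Fin m) (Fin n) ℤ :=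
  fun i j => (l.getD i []).getD j 0

theorem polar {r : ℕ} {G : Matrix (Fin r) (Fin r) ℤ} (hG : G.IsSymm) (u v : Fin r → ℤ) :
    2 * bf G u v = bf G u u + bf G v v - bf G (u - v) (u - v) := by
  rw [bf_sub_left, bf_sub_right, bf_sub_right, bf_comm hG v u]
  ring

section

variable {r n : ℕ} {G : Matrix (Fin r) (Fin r) ℤ} {adj : Fin n → Fin n → Bool}
  {l : List (Fin n)} {e : Fin n → Fin r → ℤ}

theorem dist_eq (he : ∀ i ∈ l, ∀ j ∈ l, i ≠ j → bf G (e i - e j) (e i - e j) =
    if adj i j then 6 else 4) (i j : Fin n) (hi : i ∈ l) (hj : j ∈ l) :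
    bf G (e i - e j) (e i - e j) = Nn adj i j := by
  unfold Nn
  by_cases h : i = j
  · rw [if_pos h, h, sub_self, bf_zero_left]
  · rw [if_neg h]
    exact he i hi j hj h

theorem ip_eq (hG : G.IsSymm) (he : ∀ i ∈ l, ∀ j ∈ l, i ≠ j → bf G (e i - e j) (e i - e j) =
    if adj i j then 6 else 4) (o i j : Fin n) (ho : o ∈ l) (hi : i ∈ l) (hj : j ∈ l) :
    2 * bf G (e i - e o) (e j - e o) = Nn adj i o + Nn adj j o - Nn adj i j := by
  rw [polar hG, dist_eq he i o hi ho, dist_eq he j o hj ho]
  have : e i - e o - (e j - e o) = e i - e j := by abel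
  rw [this, dist_eq he i j hi hj]

end

theorem of_pat {r n m q : ℕ} (G : Matrix (Fin r) (Fin r) ℤ) (hG : ER G)
    (T : Matrix (Fin q) (Fin q) ℤ) (adj : Fin n → Fin n → Bool) (l : List (Fin n))
    (hP : HasPat G adj l) (o : Fin n) (ho : o ∈ l) (σ : Fin m → Fin n) (hσ : ∀ i, σ i ∈ l)
    (D D' : Matrix (Fin m) (Fin m) ℤ) (k : ℤ) (hk : k ≠ 0)
    (hDD : ∀ i j, ∑ a, D' i a * D a j = if i = j then k else 0)
    (hD : ∀ i j, 2 * D i j = Nn adj (σ i) o + Nn adj (σ j) o - Nn adj (σ i) (σ j))
    (tab : List (List ℤ))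
    (htab : ∀ a : Fin (2 ^ m), (∀ i : Fin m, ((tab.getD a []).getD i 0) % 2 =
      (((a : ℕ) / 2 ^ (i : ℕ) % 2 : ℕ) : ℤ)) ∧
      ∑ i : Fin m, ∑ j : Fin m, ((tab.getD a []).getD i 0) * D i j * ((tab.getD a []).getD j 0) ≤ 6)
    (w : Matrix (Fin n) (Fin m) ℤ)
    (hw : ∀ j ∈ l, Nn adj j o - ∑ i, w j i * (Nn adj j o + Nn adj (σ i) o - Nn adj j (σ i)) +
      ∑ a, ∑ b, w j a * D a b * w j b = 0)
    (τ : Fin m → Fin q) (hτ : ∀ i j, T (τ i) (τ j) = D i j) :
    ∃ P : Matrix (Fin q) (Fin r) ℤ, P.transpose * T * P = G := by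
  obtain ⟨e, he, hsp⟩ := hP
  set b : Fin m → Fin r → ℤ := fun i => e (σ i) - e o with hbdef
  have hb : ∀ i j, bf G (b i) (b j) = D i j := by
    intro i j
    have h1 := ip_eq hG.symm he o (σ i) (σ j) ho (hσ i) (hσ j)
    have h2 := hD i j
    have h3 : 2 * bf G (b i) (b j) = 2 * D i j := by rw [h2, ← h1]
    linarith
  -- relations
  have hrel : ∀ j ∈ l, e j - e o = ∑ i, w j i • b i := by
    intro j hj
    have h1 : bf G ((e j - e o) - ∑ i, w j i • b i) ((e j - e o) - ∑ i, w j i • b i) = 0 := by
      have hexp : ∀ z z' : Fin r → ℤ, bf G (z - z') (z - z') =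
          bf G z z - 2 * bf G z z' + bf G z' z' := by
        intro z z'
        rw [bf_sub_left, bf_sub_right, bf_sub_right, bf_comm hG.symm z' z]
        ring
      rw [hexp, bf_combZ b hb (w j) (w j)]
      have h2 : bf G (e j - e o) (∑ i, w j i • b i) = ∑ i, w j i * bf G (e j - e o) (b i) := by
        classical
        have : ∀ s : Finset (Fin m), bf G (e j - e o) (∑ i ∈ s, w j i • b i) =
            ∑ i ∈ s, w j i * bf G (e j - e o) (b i) := by
          intro s
          induction s using Finset.induction_on with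
          | empty => simp [bf_zero_right]
          | insert a s ha ih => rw [sum_insert ha, sum_insert ha, bf_add_right, bf_smul_right, ih]
        exact this _
      have h3 : 2 * bf G (e j - e o) (∑ i, w j i • b i) =
          ∑ i, w j i * (Nn adj j o + Nn adj (σ i) o - Nn adj j (σ i)) := by
        rw [h2, mul_sum]
        refine sum_congr rfl fun i _ => ?_
        have := ip_eq hG.symm he o j (σ i) ho hj (hσ i)
        rw [← this]
        ring
      have h4 := hw j hj
      have h5 := dist_eq he j o hj ho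
      have h6 : bf D (w j) (w j) = ∑ a, ∑ b, w j a * D a b * w j b := by
        unfold bf
        simp
      rw [h5, h6]
      linarith
    exact sub_eq_zero.1 (ER.eq_zero hG h1)
  have hgen := gen r m G D D' k b hG hb hk
    (by
      ext i j
      rw [Matrix.mul_apply, hDD]
      simp [Matrix.one_apply])
    (by
      intro c
      let a0 : Fin m → Fin 2 := fun i => ⟨(c i % 2).toNat, by omega⟩
      let a : Fin (2 ^ m) := finFunctionFinEquiv a0
      have ha : ∀ i : Fin m, (a : ℕ) / 2 ^ (i : ℕ) % 2 = (c i % 2).toNat := by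
        intro i
        have h1 : finFunctionFinEquiv.symm a = a0 := Equiv.symm_apply_apply _ _
        have h2 := congrFun h1 i
        have h3 := congrArg Fin.val h2
        simpa [finFunctionFinEquiv] using h3
      obtain ⟨h1, h2⟩ := htab a
      refine ⟨fun i => (tab.getD a []).getD i 0, fun i => ((tab.getD a []).getD i 0 - c i) / 2, ?_, ?_⟩
      · intro i
        have h3 := h1 i
        rw [ha i] at h3
        have h4 : (((c i % 2).toNat : ℕ) : ℤ) = c i % 2 := by omega
        rw [h4] at h3
        show (tab.getD a []).getD i 0 = c i + 2 * (((tab.getD a []).getD i 0 - c i) / 2)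
        generalize (tab.getD a []).getD i 0 = x at h3 ⊢
        omega
      · unfold bf
        simpa using h2)
    (by
      intro d hd
      apply hsp
      have h1 : ∀ j ∈ l, bf G d (fun t => ((e j t - e o t : ℤ) : ℝ)) = 0 := by
        intro j hj
        have h2 : (fun t => ((e j t - e o t : ℤ) : ℝ)) =
            ∑ i, (w j i : ℝ) • (fun t => (b i t : ℝ)) := by
          funext t
          have h3 := congrFun (hrel j hj) t
          simp only [Pi.sub_apply, Finset.sum_apply, Pi.smul_apply, smul_eq_mul] at h3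
          rw [h3]
          simp
        rw [h2]
        classical
        have : ∀ s : Finset (Fin m), bf G d (∑ i ∈ s, (w j i : ℝ) • (fun t => (b i t : ℝ))) = 0 := by
          intro s
          induction s using Finset.induction_on with
          | empty => simp [bf_zero_right]
          | insert a s ha ih =>
            rw [sum_insert ha, bf_add_right, bf_smul_right, ih, hd a]
            simp
        exact this _
      intro i hi j hj
      have h3 : (fun t => ((e i t - e j t : ℤ) : ℝ)) =
          (fun t => ((e i t - e o t : ℤ) : ℝ)) - (fun t => ((e j t - e o t : ℤ) : ℝ)) := by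
        funext t
        simp
      rw [h3, bf_sub_right, h1 i hi, h1 j hj, sub_zero])
  choose B hB using fun t : Fin r => hgen (Pi.single t 1)
  refine ⟨fun a t => ∑ i, if τ i = a then B t i else 0, ?_⟩
  ext s t
  have h1 := bf_combZ b hb (B s) (B t)
  rw [← hB s, ← hB t] at h1
  have h2 : bf G (Pi.single s 1) (Pi.single t 1) = G s t := by
    simp [bf, Pi.single_apply]
  rw [h2] at h1
  rw [h1]
  simp only [Matrix.mul_apply, Matrix.transpose_apply]
  have h3 : ∀ f : Fin q → ℤ, ∀ t, ∑ a, f a * (∑ i, if τ i = a then B t i else 0) =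
      ∑ i, f (τ i) * B t i := by
    intro f t
    simp only [mul_sum]
    rw [sum_comm]
    refine sum_congr rfl fun i _ => ?_
    simp
  have h3' : ∀ f : Fin q → ℤ, ∀ t, ∑ a, (∑ i, if τ i = a then B t i else 0) * f a =
      ∑ i, f (τ i) * B t i := by
    intro f t
    rw [← h3 f t]
    exact sum_congr rfl fun a _ => mul_comm _ _
  rw [h3]
  simp only [h3', hτ]
  unfold bf
  rw [sum_comm]
  refine sum_congr rfl fun i _ => ?_
  rw [sum_mul]
  refine sum_congr rfl fun j _ => ?_
  rw [Int.cast_id]
  ring

end Pool.Agent.Y338.LE
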